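import Pool.Agent.W254.LF.Stm2

/-!
LF2-REAL: real roots of `(X - t) P - 1` for large `|t|`.
-/

set_option autoImplicit false

namespace Pool.Agent.W101.LF

open Polynomial Filter Topology

/-- a uniform lower bound for the derivative near the points of `A` -/
lemma near (q : ℝ[X]) (A : Finset ℝ) (hA' : ∀ a ∈ A, q.derivative.eval a ≠ 0) :
    ∃ m : ℝ, 0 < m ∧ ∃ δ : ℝ, 0 < δ ∧ ∀ a ∈ A, ∀ x, |x - a| < δ → m ≤ |q.derivative.eval x| := by
  classical
  induction A using Finset.induction_on with
  | empty => exact ⟨1, one_pos, 1, one_pos, fun a ha => absurd ha (Finset.notMem_empty a)⟩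
  | insert a A _ ih =>
    obtain ⟨m, hm, δ, hδ, h⟩ := ih fun b hb => hA' b (Finset.mem_insert_of_mem hb)
    have h0 := abs_pos.2 (hA' a (Finset.mem_insert_self a A))
    have hc : ContinuousAt (fun x => |q.derivative.eval x|) a :=
      (q.derivative.continuous.abs).continuousAt
    have h1 : ∀ᶠ x in 𝓝 a, |q.derivative.eval a| / 2 < |q.derivative.eval x| :=
      hc.eventually (lt_mem_nhds (by linarith))
    obtain ⟨δ', hδ', h2⟩ := Metric.eventually_nhds_iff.1 h1
    refine ⟨min m (|q.derivative.eval a| / 2), lt_min hm (by linarith), min δ δ', lt_min hδ hδ',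
      fun b hb x hx => ?_⟩
    rcases Finset.mem_insert.1 hb with rfl | hb
    · refine (min_le_right _ _).trans (h2 ?_).le
      rw [Real.dist_eq]
      exact hx.trans_le (min_le_right _ _)
    · exact (min_le_left _ _).trans (h b hb x (hx.trans_le (min_le_left _ _)))

lemma prod_lower {δ : ℝ} (hδ : 0 < δ) (x : ℝ) (s : Multiset ℝ) (h : ∀ a ∈ s, δ ≤ |x - a|) :
    δ ^ s.card ≤ |(s.map fun a => x - a).prod| := by
  induction s using Multiset.induction_on with
  | empty => simp
  | cons b s ih =>
    rw [Multiset.map_cons, Multiset.prod_cons, Multiset.card_cons, abs_mul, pow_succ']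
    exact mul_le_mul (h b (Multiset.mem_cons_self b s))
      (ih fun a ha => h a (Multiset.mem_cons_of_mem ha)) (pow_nonneg hδ.le _) (abs_nonneg _)

/-- away from its roots a polynomial is bounded below -/
lemma away (q : ℝ[X]) (hq : q ≠ 0) (A : Finset ℝ) (hA : ∀ x, q.eval x = 0 → x ∈ A) {δ : ℝ}
    (hδ : 0 < δ) : ∃ ε : ℝ, 0 < ε ∧ ∀ x, (∀ a ∈ A, δ ≤ |x - a|) → ε ≤ |q.eval x| := by
  obtain ⟨s, hs, _, hs0⟩ := q.exists_prod_multiset_X_sub_C_mul
  have hsne : s ≠ 0 := by
    rintro rfl
    rw [mul_zero] at hs
    exact hq hs.symm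
  obtain ⟨x0, hx0⟩ := Polynomial.exists_forall_norm_le s
  have h1 : 0 < ‖s.eval x0‖ := by
    rw [norm_pos_iff]
    intro h
    have : x0 ∈ s.roots := (mem_roots hsne).2 h
    rw [hs0] at this
    exact absurd this (Multiset.notMem_zero _)
  refine ⟨δ ^ q.roots.card * ‖s.eval x0‖, by positivity, fun x hx => ?_⟩
  conv_rhs => rw [← hs]
  rw [eval_mul, abs_mul]
  refine mul_le_mul ?_ (hx0 x) h1.le (abs_nonneg _)
  have h2 : eval x (q.roots.map fun a => X - C a).prod = (q.roots.map fun a => x - a).prod := by
    rw [eval_multiset_prod, Multiset.map_map]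
    congr 1
    refine Multiset.map_congr rfl fun a _ => ?_
    simp
  rw [h2]
  refine prod_lower hδ x _ fun a ha => hx a (hA a ?_)
  exact (mem_roots hq).1 ha

/-- the behaviour at infinity -/
lemma far (q : ℝ[X]) (hq : q ≠ 0) : ∃ B : ℝ, ∀ x, B ≤ x → q.eval x ≠ 0 ∧
    |q.derivative.eval x| < q.eval x ^ 2 := by
  have h1 : Tendsto (fun x => eval x q.derivative / eval x (q ^ 2)) atTop (𝓝 0) := by
    refine Polynomial.div_tendsto_zero_of_degree_lt _ _ ?_
    refine (degree_derivative_lt hq).trans_le ?_
    exact degree_le_of_dvd (Dvd.intro_left q (by ring)) (pow_ne_zero 2 hq)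
  have h2 : ∀ᶠ x in atTop, |eval x q.derivative / eval x (q ^ 2)| < 1 := by
    have := (continuous_abs.tendsto (0 : ℝ)).comp h1
    rw [abs_zero] at this
    exact this.eventually (gt_mem_nhds one_pos)
  have h3 : ∀ᶠ x in atTop, q.eval x ≠ 0 := by
    have h4 : (q.roots.toFinset : Set ℝ).Finite := Finset.finite_toSet _
    obtain ⟨b, hb⟩ := h4.bddAbove
    filter_upwards [eventually_gt_atTop b] with x hx h5
    have : x ∈ (q.roots.toFinset : Set ℝ) := by
      simp only [Finset.mem_coe, Multiset.mem_toFinset]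
      exact (mem_roots hq).2 h5
    exact absurd (hb this) (not_le.2 hx)
  obtain ⟨B, hB⟩ := eventually_atTop.1 (h2.and h3)
  refine ⟨B, fun x hx => ?_⟩
  obtain ⟨h4, h5⟩ := hB x hx
  refine ⟨h5, ?_⟩
  rw [eval_pow, abs_div, abs_of_nonneg (sq_nonneg (eval x q)), div_lt_one (by positivity)] at h4
  exact h4

/-- **the counting lemma** -/
lemma count (q : ℝ[X]) (hq : q ≠ 0) (A : Finset ℝ) (hA : ∀ x, q.eval x = 0 → x ∈ A)
    (hA' : ∀ a ∈ A, q.derivative.eval a ≠ 0) :
    ∃ T : ℝ, ∀ t, T < t → ∀ s : Finset ℝ, (∀ x ∈ s, (x - t) * q.eval x = 1) →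
      s.card ≤ 1 + A.card := by
  classical
  obtain ⟨m, hm, δ, hδ, hnear⟩ := near q A hA'
  obtain ⟨ε, hε, haway⟩ := away q hq A hA hδ
  obtain ⟨B, hB⟩ := far q hq
  refine ⟨B + 1 + 1 / ε + 1 / m, fun t ht s hs => ?_⟩
  have he0 : 0 < 1 / ε := by positivity
  have hm0 : 0 < 1 / m := by positivity
  -- the small roots are near points of `A`
  have hsmall : ∀ x ∈ s, x < B → ∃ a ∈ A, |x - a| < δ := by
    intro x hx hxB
    by_contra hcon
    push Not at hcon
    have h1 := haway x hcon
    have h2 := hs x hx
    have h3 : |x - t| * |q.eval x| = 1 := by rw [← abs_mul, h2, abs_one]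
    have h4 : 1 / ε < |x - t| := by
      rw [abs_sub_comm, abs_of_pos (by linarith)]
      linarith
    have h5 : 1 / ε * ε < |x - t| * |q.eval x| :=
      mul_lt_mul h4 h1 hε (abs_nonneg _)
    rw [h3, one_div, inv_mul_cancel₀ hε.ne'] at h5
    exact lt_irrefl _ h5
  let lab : ℝ → Option ℝ := fun x => if h : ∃ a ∈ A, x < B ∧ |x - a| < δ then some h.choose
    else none
  have hmaps : ∀ x ∈ s, lab x ∈ Finset.insertNone A := by
    intro x _
    simp only [lab]
    split_ifs with h
    · exact Finset.some_mem_insertNone.2 h.choose_spec.1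
    · exact Finset.none_mem_insertNone
  have hinj : Set.InjOn lab s := by
    intro x hx y hy hxy
    have hx1 := hs x hx
    have hy1 := hs y hy
    simp only [lab] at hxy
    by_cases hxl : ∃ a ∈ A, x < B ∧ |x - a| < δ
    · by_cases hyl : ∃ a ∈ A, y < B ∧ |y - a| < δ
      · rw [dif_pos hxl, dif_pos hyl] at hxy
        have hab : hxl.choose = hyl.choose := Option.some.inj hxy
        obtain ⟨haA, hxB, hxa⟩ := hxl.choose_spec
        obtain ⟨_, hyB, hya⟩ := hyl.choose_spec
        rw [← hab] at hya
        set a := hxl.choose with ha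
        -- mean value theorem
        by_contra hne
        obtain ⟨ξ, hξa, hξ⟩ : ∃ ξ, |ξ - a| < δ ∧
            q.eval x - q.eval y = q.derivative.eval ξ * (x - y) := by
          rcases lt_or_gt_of_ne hne with h | h
          · obtain ⟨ξ, hξ1, hξ2⟩ := exists_deriv_eq_slope (fun x => q.eval x) h
              q.continuous.continuousOn q.differentiable.differentiableOn
            refine ⟨ξ, ?_, ?_⟩
            · rw [abs_lt] at hxa hya ⊢
              constructor <;> linarith [hξ1.1, hξ1.2]
            · rw [Polynomial.deriv, eq_div_iff (by linarith)] at hξ2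
              linarith
          · obtain ⟨ξ, hξ1, hξ2⟩ := exists_deriv_eq_slope (fun x => q.eval x) h
              q.continuous.continuousOn q.differentiable.differentiableOn
            refine ⟨ξ, ?_, ?_⟩
            · rw [abs_lt] at hxa hya ⊢
              constructor <;> linarith [hξ1.1, hξ1.2]
            · rw [Polynomial.deriv, eq_div_iff (by linarith)] at hξ2
              linarith
        have h1 : (x - y) * (q.eval x + (y - t) * q.derivative.eval ξ) = 0 := by
          linear_combination hx1 - hy1 - (y - t) * hξ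
        have h2 : q.eval x + (y - t) * q.derivative.eval ξ = 0 :=
          (mul_eq_zero.1 h1).resolve_left (sub_ne_zero.2 hne)
        have h3 : |q.eval x| = |y - t| * |q.derivative.eval ξ| := by
          rw [← abs_mul]
          have : q.eval x = -((y - t) * q.derivative.eval ξ) := by linarith
          rw [this, abs_neg]
        have h4 := hnear a haA ξ hξa
        have h5 : 1 / m < |y - t| := by
          rw [abs_sub_comm, abs_of_pos (by linarith)]; linarith
        have h6 : 1 < |x - t| := by
          rw [abs_sub_comm, abs_of_pos (by linarith)]; linarith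
        have h7 : |x - t| * |q.eval x| = 1 := by rw [← abs_mul, hx1, abs_one]
        have h8 : 1 / m * m < |y - t| * |q.derivative.eval ξ| :=
          mul_lt_mul h5 h4 hm (abs_nonneg _)
        rw [one_div, inv_mul_cancel₀ hm.ne', ← h3] at h8
        nlinarith
      · rw [dif_pos hxl, dif_neg hyl] at hxy
        exact absurd hxy (by simp)
    · by_cases hyl : ∃ a ∈ A, y < B ∧ |y - a| < δ
      · rw [dif_neg hxl, dif_pos hyl] at hxy
        exact absurd hxy (by simp)
      · have hxB : B ≤ x := by
          by_contra h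
          push Not at h
          obtain ⟨a, ha, h1⟩ := hsmall x hx h
          exact hxl ⟨a, ha, h, h1⟩
        have hyB : B ≤ y := by
          by_contra h
          push Not at h
          obtain ⟨a, ha, h1⟩ := hsmall y hy h
          exact hyl ⟨a, ha, h, h1⟩
        have hmono : StrictMonoOn (fun x => x - (q.eval x)⁻¹) (Set.Ici B) := by
          have hder : ∀ x, B ≤ x → HasDerivAt (fun x => x - (q.eval x)⁻¹)
              (1 - -(q.derivative.eval x) / q.eval x ^ 2) x := fun x hx =>
            (hasDerivAt_id x).sub ((q.hasDerivAt x).inv (hB x hx).1)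
          refine strictMonoOn_of_deriv_pos (convex_Ici B)
            (fun x hx => (hder x hx).continuousAt.continuousWithinAt) fun x hx => ?_
          rw [interior_Ici] at hx
          have hx' : B ≤ x := le_of_lt hx
          rw [(hder x hx').deriv]
          have h1 := (hB x hx').2
          have h2 : 0 < q.eval x ^ 2 := lt_of_le_of_lt (abs_nonneg _) h1
          have h3 : -(q.derivative.eval x) / q.eval x ^ 2 < 1 := by
            rw [div_lt_one h2]
            exact (neg_le_abs _).trans_lt h1
          linarith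
        have hval : ∀ x, (x - t) * q.eval x = 1 → x - (q.eval x)⁻¹ = t := by
          intro x hx
          rw [← eq_inv_of_mul_eq_one_left hx]
          ring
        exact hmono.injOn hxB hyB ((hval x hx1).trans (hval y hy1).symm)
  have := Finset.card_le_card_of_injOn lab hmaps hinj
  rw [Finset.card_insertNone] at this
  omega

theorem t_REAL : Pool.Agent.W254.LF.S_REAL := by
  classical
  intro r P hmon hinj hP
  set q : ℝ[X] := (∏ i, P i : ℤ[X]).map (Int.castRingHom ℝ) with hq
  have hqm : q.Monic := (monic_prod_of_monic _ _ fun i _ => hmon i).map _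
  have hq0 : q ≠ 0 := hqm.ne_zero
  have hqe : ∀ x : ℝ, q.eval x = ∏ i, ((P i).map (Int.castRingHom ℝ)).eval x := by
    intro x
    rw [hq, Polynomial.map_prod, eval_prod]
  set F : Finset (Fin r) := Finset.univ.filter fun i => (P i).natDegree = 1 with hF
  set A : Finset ℝ := F.image fun i => -(((P i).coeff 0 : ℤ) : ℝ) with hAdef
  have hlin : ∀ i ∈ F, P i = X + C ((P i).coeff 0) := by
    intro i hi
    exact (hmon i).eq_X_add_C (Finset.mem_filter.1 hi).2
  have hev : ∀ i ∈ F, ∀ x : ℝ, ((P i).map (Int.castRingHom ℝ)).eval x =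
      x + (((P i).coeff 0 : ℤ) : ℝ) := by
    intro i hi x
    conv_lhs => rw [hlin i hi]
    simp
  have hA : ∀ x, q.eval x = 0 → x ∈ A := by
    intro x hx
    rw [hqe, Finset.prod_eq_zero_iff] at hx
    obtain ⟨i, _, hi⟩ := hx
    have hiF : i ∈ F := by
      rcases hP i with h | h
      · exact Finset.mem_filter.2 ⟨Finset.mem_univ i, h⟩
      · exact absurd hi (h x)
    rw [hev i hiF] at hi
    refine Finset.mem_image.2 ⟨i, hiF, ?_⟩
    linarith
  have hA' : ∀ a ∈ A, q.derivative.eval a ≠ 0 := by
    intro a ha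
    obtain ⟨i, hi, rfl⟩ := Finset.mem_image.1 ha
    have h1 : q = (X + C (((P i).coeff 0 : ℤ) : ℝ)) *
        ∏ j ∈ Finset.univ.erase i, (P j).map (Int.castRingHom ℝ) := by
      rw [hq, Polynomial.map_prod, ← Finset.mul_prod_erase _ _ (Finset.mem_univ i)]
      congr 1
      conv_lhs => rw [hlin i hi]
      simp
    rw [h1, derivative_mul]
    simp only [eval_add, eval_mul, derivative_add, derivative_X, derivative_C, add_zero, eval_X,
      eval_C, neg_add_cancel, zero_mul, eval_one, one_mul]
    rw [eval_prod, Finset.prod_ne_zero_iff]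
    intro j hj h2
    rcases hP j with h | h
    · have hjF : j ∈ F := Finset.mem_filter.2 ⟨Finset.mem_univ j, h⟩
      rw [hev j hjF] at h2
      have h3 : (P j).coeff 0 = (P i).coeff 0 := by
        have : (((P j).coeff 0 : ℤ) : ℝ) = (((P i).coeff 0 : ℤ) : ℝ) := by linarith
        exact_mod_cast this
      apply (Finset.mem_erase.1 hj).1
      apply hinj
      rw [hlin j hjF, hlin i hi, h3]
    · exact h _ h2
  have hAcard : A.card ≤ F.card := Finset.card_image_le
  obtain ⟨T1, hT1⟩ := count q hq0 A hA hA'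
  -- the reflected polynomial
  set q2 : ℝ[X] := -(q.comp (-X)) with hq2
  have hq2e : ∀ x, q2.eval x = - q.eval (-x) := by
    intro x
    rw [hq2]
    simp
  have hq20 : q2 ≠ 0 := by
    intro h
    apply hq0
    have h1 : q2.comp (-X) = 0 := by rw [h, zero_comp]
    rw [hq2, neg_comp, comp_assoc, neg_comp, X_comp, neg_neg, comp_X, neg_eq_zero] at h1
    exact h1
  have hB : ∀ x, q2.eval x = 0 → x ∈ A.image (fun a => -a) := by
    intro x hx
    rw [hq2e, neg_eq_zero] at hx
    exact Finset.mem_image.2 ⟨-x, hA _ hx, neg_neg x⟩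
  have hB' : ∀ a ∈ A.image (fun a => -a), q2.derivative.eval a ≠ 0 := by
    intro a ha
    obtain ⟨b, hb, rfl⟩ := Finset.mem_image.1 ha
    rw [hq2, derivative_neg, derivative_comp]
    simp only [derivative_neg, derivative_X, eval_neg, eval_mul, eval_comp, eval_X, neg_neg,
      eval_one, neg_mul, one_mul]
    exact hA' b hb
  obtain ⟨T2, hT2⟩ := count q2 hq20 _ hB hB'
  have hBcard : (A.image (fun a => -a)).card ≤ F.card := Finset.card_image_le.trans hAcard
  obtain ⟨T0, hT0⟩ := exists_int_gt (max T1 T2)
  refine ⟨T0, fun t ht => ?_⟩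
  set G : ℝ[X] := (((X - C t) * ∏ i, P i - 1 : ℤ[X]).map (Int.castRingHom ℝ)) with hG
  have hGe : ∀ x, G.eval x = (x - t) * q.eval x - 1 := by
    intro x
    rw [hG, Polynomial.map_sub, Polynomial.map_mul, ← hq, Polynomial.map_one]
    simp
  have hroot : ∀ x ∈ G.roots.toFinset, (x - t) * q.eval x = 1 := by
    intro x hx
    rw [Multiset.mem_toFinset] at hx
    have h1 := (mem_roots'.1 hx).2
    rw [IsRoot.def, hGe] at h1
    linarith
  rcases le_abs.1 ht with h | h
  · have h1 : T1 < (t : ℝ) := by
      have : (T0 : ℝ) ≤ t := by exact_mod_cast h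
      exact (le_max_left _ _).trans_lt (hT0.trans_le this)
    have h2 := hT1 t h1 _ hroot
    omega
  · have h1 : T2 < -(t : ℝ) := by
      have : (T0 : ℝ) ≤ ((-t : ℤ) : ℝ) := by exact_mod_cast h
      push_cast at this
      exact (le_max_right _ _).trans_lt (hT0.trans_le this)
    have h2 := hT2 (-(t : ℝ)) h1 (G.roots.toFinset.image fun a => -a) (by
      intro x hx
      obtain ⟨y, hy, rfl⟩ := Finset.mem_image.1 hx
      rw [hq2e, neg_neg]
      have := hroot y hy
      linarith)
    rw [Finset.card_image_of_injective _ neg_injective] at h2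
    omega

end Pool.Agent.W101.LF
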